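import Pool.Agent.Work.MP_a74ba6_co.Dom

set_option autoImplicit false

namespace Pool.Agent.Results.MP_a74ba6_co.HalfBound

universe u

/-- `D` is an orientation of `G`: all arcs of `D` are along edges of `G`, and every edge of `G`
gets exactly one of its two directions. -/
def IsOrientation {V : Type u} (G : SimpleGraph V) (D : V → V → Prop) : Prop :=
  (∀ x y, D x y → G.Adj x y) ∧ ∀ x y, G.Adj x y → Xor' (D x y) (D y x)

/-- `S` dominates the digraph `D`: every vertex outside `S` is the head of an arc with its tail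
in `S`. -/
def IsDominating {V : Type u} (D : V → V → Prop) (S : Finset V) : Prop :=
  ∀ x, x ∉ S → ∃ y ∈ S, D y x

/-- The domination number of the digraph `D`. -/
noncomputable def domNum {V : Type u} (D : V → V → Prop) : ℕ :=
  sInf {k | ∃ S : Finset V, IsDominating D S ∧ S.card = k}

/-- The directed domination number of the graph `G`: the maximum of the domination numbers of
its orientations. -/
noncomputable def dirDomNum {V : Type u} (G : SimpleGraph V) : ℕ :=
  sSup {k | ∃ D : V → V → Prop, IsOrientation G D ∧ domNum D = k}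

/-- `M(n, r)`: the maximum of the directed domination numbers of the `r`-regular graphs on `n`
vertices. -/
noncomputable def maxDirDom (n r : ℕ) : ℕ :=
  sSup {k | ∃ (V : Type) (_ : Fintype V) (G : SimpleGraph V) (_ : DecidableRel G.Adj),
    Fintype.card V = n ∧ G.IsRegularOfDegree r ∧ dirDomNum G = k}

theorem exists_dominating {V : Type u} [Fintype V] {G : SimpleGraph V} [DecidableRel G.Adj] {r : ℕ}
    (hr : 3 ≤ r) (hG : G.IsRegularOfDegree r) {D : V → V → Prop} (hD : IsOrientation G D) :
    ∃ S : Finset V, 2 * S.card ≤ Fintype.card V ∧ IsDominating D S := by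
  classical
  have hA : ∀ x y, Work.MP_a74ba6_co.Ad D x y ↔ G.Adj x y := by
    intro x y
    constructor
    · rintro (h | h)
      · exact hD.1 _ _ h
      · exact (hD.1 _ _ h).symm
    · intro h
      rcases hD.2 x y h with h | h
      · exact Or.inl h.1
      · exact Or.inr h.1
  have hasym : ∀ x y, D x y → ¬ D y x := by
    intro x y h1 h2
    rcases hD.2 x y (hD.1 _ _ h1) with h | h
    · exact h.2 h2
    · exact h.2 h1
  refine Work.MP_a74ba6_co.main hasym hr ?_
  intro x
  rw [← hG x, SimpleGraph.degree]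
  congr 1
  ext y
  simp [hA]

theorem domNum_le {V : Type u} {D : V → V → Prop} {S : Finset V} (h : IsDominating D S) :
    domNum D ≤ S.card := Nat.sInf_le ⟨S, h, rfl⟩

theorem dirDomNum_le {V : Type u} [Fintype V] {G : SimpleGraph V} [DecidableRel G.Adj] {r : ℕ}
    (hr : 3 ≤ r) (hG : G.IsRegularOfDegree r) : 2 * dirDomNum G ≤ Fintype.card V := by
  have key : ∀ k ∈ {k | ∃ D : V → V → Prop, IsOrientation G D ∧ domNum D = k},
      k ≤ Fintype.card V / 2 := by
    rintro k ⟨D, hD, rfl⟩
    obtain ⟨S, hS, hdom⟩ := exists_dominating hr hG hD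
    have := domNum_le hdom
    omega
  have : dirDomNum G ≤ Fintype.card V / 2 := by
    rcases Set.eq_empty_or_nonempty {k | ∃ D : V → V → Prop, IsOrientation G D ∧ domNum D = k}
      with h | h
    · unfold dirDomNum; rw [h]; simp
    · exact csSup_le h key
  omega

/-- the maximum defining `dirDomNum` is attained -/
theorem dirDomNum_attained {V : Type u} [Fintype V] (G : SimpleGraph V) :
    (∃ D : V → V → Prop, IsOrientation G D ∧ domNum D = dirDomNum G) ∧
      ∀ D : V → V → Prop, IsOrientation G D → domNum D ≤ dirDomNum G := by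
  classical
  have hb : BddAbove {k | ∃ D : V → V → Prop, IsOrientation G D ∧ domNum D = k} := by
    refine ⟨Fintype.card V, ?_⟩
    rintro k ⟨D, _, rfl⟩
    have := domNum_le (D := D) (S := Finset.univ) (by intro x hx; simp at hx)
    simpa using this
  have hne : {k | ∃ D : V → V → Prop, IsOrientation G D ∧ domNum D = k}.Nonempty := by
    let e := Fintype.equivFin V
    refine ⟨_, fun x y => G.Adj x y ∧ e x < e y, ⟨fun x y h => h.1, ?_⟩, rfl⟩
    intro x y h
    have hne : e x ≠ e y := fun h' => h.ne (e.injective h')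
    rcases lt_or_gt_of_ne hne with h1 | h1
    · exact Or.inl ⟨⟨h, h1⟩, fun h2 => absurd h2.2 (not_lt.2 h1.le)⟩
    · exact Or.inr ⟨⟨h.symm, h1⟩, fun h2 => absurd h2.2 (not_lt.2 h1.le)⟩
  refine ⟨Nat.sSup_mem hne hb, ?_⟩
  intro D hD
  exact le_csSup hb ⟨D, hD, rfl⟩

theorem maxDirDom_bdd {n r : ℕ} (hr : 3 ≤ r) :
    ∀ k ∈ {k | ∃ (V : Type) (_ : Fintype V) (G : SimpleGraph V) (_ : DecidableRel G.Adj),
      Fintype.card V = n ∧ G.IsRegularOfDegree r ∧ dirDomNum G = k}, k ≤ n / 2 := by
  rintro k ⟨V, _, G, _, rfl, hG, rfl⟩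
  have := dirDomNum_le hr hG
  omega

theorem maxDirDom_le {n r : ℕ} (hr : 3 ≤ r) : 2 * maxDirDom n r ≤ n := by
  have : maxDirDom n r ≤ n / 2 := by
    rcases Set.eq_empty_or_nonempty {k | ∃ (V : Type) (_ : Fintype V) (G : SimpleGraph V)
      (_ : DecidableRel G.Adj), Fintype.card V = n ∧ G.IsRegularOfDegree r ∧ dirDomNum G = k}
      with h | h
    · unfold maxDirDom; rw [h]; simp
    · exact csSup_le h (maxDirDom_bdd hr)
  omega

/-- `m` disjoint copies of the complete bipartite graph with sides of size `r` -/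
def copies (m r : ℕ) : SimpleGraph (Fin m × Bool × Fin r) where
  Adj x y := x.1 = y.1 ∧ x.2.1 ≠ y.2.1
  symm := ⟨fun _ _ h => ⟨h.1.symm, h.2.symm⟩⟩
  loopless := ⟨fun _ h => h.2 rfl⟩

instance (m r : ℕ) : DecidableRel (copies m r).Adj := fun x y =>
  inferInstanceAs (Decidable (x.1 = y.1 ∧ x.2.1 ≠ y.2.1))

theorem copies_regular (m r : ℕ) : (copies m r).IsRegularOfDegree r := by
  intro x
  rw [SimpleGraph.degree]
  have : (copies m r).neighborFinset x =
      (Finset.univ : Finset (Fin r)).image (fun i => (x.1, !x.2.1, i)) := by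
    ext y
    simp only [SimpleGraph.mem_neighborFinset, Finset.mem_image, Finset.mem_univ, true_and]
    constructor
    · rintro ⟨h1, h2⟩
      refine ⟨y.2.2, ?_⟩
      obtain ⟨y1, y2, y3⟩ := y
      simp only at h1 h2 ⊢
      subst h1
      congr
      cases h : x.2.1 <;> cases y2 <;> simp_all
    · rintro ⟨i, rfl⟩
      refine ⟨rfl, ?_⟩
      simp
  rw [this, Finset.card_image_of_injective]
  · simp
  · intro i j h
    simpa using h

theorem copies_ge {m r : ℕ} (hr : 3 ≤ r) : m * r ≤ maxDirDom (2 * (m * r)) r := by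
  have h1 : m * r ≤ dirDomNum (copies m r) := by
    refine le_trans ?_ ((dirDomNum_attained (copies m r)).2
      (fun x y => (copies m r).Adj x y ∧ x.2.1 = true) ⟨fun x y h => h.1, ?_⟩)
    · apply le_csInf
      · exact ⟨_, Finset.univ, by intro x hx; simp at hx, rfl⟩
      · rintro k ⟨S, hS, rfl⟩
        have hsub : (Finset.univ : Finset (Fin m × Fin r)).image
            (fun z => ((z.1, true, z.2) : Fin m × Bool × Fin r)) ⊆ S := by
          intro z hz
          simp only [Finset.mem_image, Finset.mem_univ, true_and] at hz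
          obtain ⟨w, rfl⟩ := hz
          by_contra hcon
          obtain ⟨y, _, hy⟩ := hS _ hcon
          exact hy.1.2 hy.2
        have h2 := Finset.card_le_card hsub
        rw [Finset.card_image_of_injective] at h2
        · simpa using h2
        · rintro ⟨a, b⟩ ⟨c, d⟩ h
          simpa using h
    · intro x y h
      have h2 := h.2
      cases hx : x.2.1 <;> cases hy : y.2.1
      · exact absurd (hx.trans hy.symm) h2
      · right; exact ⟨⟨h.symm, hy⟩, fun h3 => by simp [hx] at h3⟩
      · left; exact ⟨⟨h, hx⟩, fun h3 => by simp [hy] at h3⟩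
      · exact absurd (hx.trans hy.symm) h2
  refine h1.trans (le_csSup ⟨_, maxDirDom_bdd hr⟩ ⟨Fin m × Bool × Fin r, inferInstance,
    copies m r, inferInstance, ?_, copies_regular m r, rfl⟩)
  simp; ring

/-- **Full answer to Q1.**  For every `r ≥ 3` every finite `r`-regular graph `G` on `n` vertices
satisfies `Γ_d(G) ≤ n / 2`; that is, `M(n, r) ≤ n / 2` for all `n`, with equality for every `n`
divisible by `2 r`. -/
theorem result :
    (∀ (r : ℕ), 3 ≤ r → ∀ (V : Type u) [Fintype V] (G : SimpleGraph V) [DecidableRel G.Adj],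
      G.IsRegularOfDegree r → 2 * dirDomNum G ≤ Fintype.card V) ∧
    (∀ (r n : ℕ), 3 ≤ r → 2 * maxDirDom n r ≤ n) ∧
    (∀ (r n : ℕ), 3 ≤ r → 2 * r ∣ n → 2 * maxDirDom n r = n) := by
  refine ⟨fun r hr V _ G _ hG => dirDomNum_le hr hG, fun r n hr => maxDirDom_le hr, ?_⟩
  rintro r n hr ⟨m, rfl⟩
  have h1 := copies_ge (m := m) hr
  have h2 := maxDirDom_le (n := 2 * r * m) hr
  have h3 : 2 * (m * r) = 2 * r * m := by ring
  rw [h3] at h1
  have h4 : m * r = r * m := by ring
  have h5 : 2 * r * m = 2 * (r * m) := by ring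
  omega

end Pool.Agent.Results.MP_a74ba6_co.HalfBound
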